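import Mathlib

set_option autoImplicit false

namespace Pool.Agent.Results.MP_1453e0_an.Counter

open MeasureTheory Metric Set Pointwise Finset

abbrev E (n : ℕ) := EuclideanSpace ℝ (Fin n)

variable {n m : ℕ}

/-- Average over the unit sphere for the normalized rotation-invariant measure. -/
noncomputable def avg (F : E n → ℝ) : ℝ :=
  ⨍ x : sphere (0 : E n) 1, F x ∂(volume : Measure (E n)).toSphere

noncomputable def M (K : Set (E n)) : ℝ := avg (gauge K)

noncomputable def Mstar (K : Set (E n)) : ℝ := avg fun x => sSup ((fun y => inner ℝ x y) '' K)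

/-- The position-independent `MM*` product. -/
noncomputable def MM (K : Set (E n)) : ℝ := ⨅ T : E n ≃L[ℝ] E n, M (T '' K) * Mstar (T '' K)

def sgn (b : Bool) : ℝ := if b then 1 else -1

/-- The norm of `L₂({-1,1}^m; X_K)`. -/
noncomputable def L2 (K : Set (E n)) (f : (Fin m → Bool) → E n) : ℝ :=
  √((∑ ε, gauge K (f ε) ^ 2) / 2 ^ m)

/-- The Rademacher projection. -/
noncomputable def rad (f : (Fin m → Bool) → E n) (ε : Fin m → Bool) : E n :=
  ∑ i, sgn (ε i) • ((1 / 2 ^ m : ℝ) • ∑ δ, sgn (δ i) • f δ)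

lemma avg_le [NeZero n] {F G : E n → ℝ} (hG : Continuous G) (h0 : ∀ x, 0 ≤ G x)
    (h : ∀ x, ‖x‖ = 1 → F x ≤ G x) : avg F ≤ avg G := by
  have hi : Integrable (fun x : sphere (0 : E n) 1 => G x) (volume : Measure (E n)).toSphere :=
    (hG.comp continuous_subtype_val).integrable_of_hasCompactSupport
      (HasCompactSupport.of_compactSpace _)
  unfold avg
  rw [average_eq, average_eq]
  refine smul_le_smul_of_nonneg_left ?_ (by positivity)
  by_cases hF : Integrable (fun x : sphere (0 : E n) 1 => F x) (volume : Measure (E n)).toSphere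
  · exact integral_mono hF hi fun x => h x (by simp)
  · rw [integral_undef hF]
    exact integral_nonneg fun x => h0 x

lemma avg_nonneg {F : E n → ℝ} (h : ∀ x, 0 ≤ F x) : 0 ≤ avg F := by
  unfold avg
  rw [average_eq]
  exact smul_nonneg (by positivity) (integral_nonneg fun x => h x)

lemma avg_iso (e : E n ≃ₗᵢ[ℝ] E n) (F : E n → ℝ) : avg (F ∘ e) = avg F := by
  let e' : sphere (0 : E n) 1 ≃ₜ sphere (0 : E n) 1 :=
    e.toHomeomorph.subtype fun x => by simp
  have hm : MeasurePreserving e'.toMeasurableEquiv (volume : Measure (E n)).toSphere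
      (volume : Measure (E n)).toSphere := by
    refine ⟨e'.measurable, Measure.ext fun s hs => ?_⟩
    rw [Measure.map_apply e'.toMeasurableEquiv.measurable hs, Measure.toSphere_apply' _ hs,
      Measure.toSphere_apply' _ (e'.toMeasurableEquiv.measurable hs),
      ← MeasurePreserving.measure_preimage_equiv (f := e.toHomeomorph.toMeasurableEquiv)
        e.measurePreserving (Ioo (0 : ℝ) 1 • (Subtype.val '' s))]
    congr 2
    ext x
    constructor
    · rintro ⟨r, hr, _, ⟨y, hy, rfl⟩, rfl⟩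
      exact ⟨r, hr, _, ⟨e' y, hy, rfl⟩, (e.map_smul r y).symm⟩
    · rintro ⟨r, hr, _, ⟨y, hy, rfl⟩, h⟩
      refine ⟨r, hr, _, ⟨e'.symm y, by simpa using hy, rfl⟩, e.injective ?_⟩
      exact (e.map_smul r _).trans ((congrArg (r • ·) (e.apply_symm_apply y)).trans h)
  unfold avg
  rw [average_eq, average_eq]
  exact congrArg _ (hm.integral_comp' fun x => F x)

lemma intg {G : E n → ℝ} (hG : Continuous G) :
    Integrable (fun x : sphere (0 : E n) 1 => G x) (volume : Measure (E n)).toSphere :=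
  (hG.comp continuous_subtype_val).integrable_of_hasCompactSupport
    (HasCompactSupport.of_compactSpace _)

lemma avg_const [NeZero n] (c : ℝ) : avg (fun _ : E n => c) = c := by
  have : NeZero (volume : Measure (E n)).toSphere := ⟨Measure.toSphere_ne_zero _⟩
  exact average_const _ _

lemma avg_aff [NeZero n] {ι : Type} [Fintype ι] (j : ι → Fin n) (a b : ℝ) :
    avg (fun x : E n => a + b * ∑ i, x (j i) ^ 2) =
      a + b * ∑ i, avg (fun x : E n => x (j i) ^ 2) := by
  have h := avg_const (n := n) a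
  unfold avg at *
  simp only [average_eq, smul_eq_mul] at h ⊢
  rw [integral_add (integrable_const _) (intg (G := fun x => b * ∑ i, x (j i) ^ 2) (by fun_prop)),
    mul_add, h, integral_const_mul,
    integral_finsetSum _ fun i _ => intg (G := fun x => x (j i) ^ 2) (by fun_prop), ← mul_sum]
  ring

lemma avg_sq [NeZero n] (i : Fin n) : avg (fun x : E n => x i ^ 2) = 1 / n := by
  have h1 : ∀ k, avg (fun x : E n => x k ^ 2) = avg (fun x : E n => x i ^ 2) := fun k => by
    rw [← avg_iso (LinearIsometryEquiv.piLpCongrLeft 2 ℝ ℝ (Equiv.swap i k))]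
    congr 1
    funext x
    simp [Equiv.piCongrLeft'_apply]
  have h2 := avg_aff (n := n) id 0 1
  have h3 : avg (fun x : E n => 0 + 1 * ∑ i, x (id i) ^ 2) = avg fun _ : E n => (1 : ℝ) := by
    unfold avg
    congr 1
    funext x
    simpa using (EuclideanSpace.real_norm_sq_eq x.1).symm
  rw [h3, avg_const] at h2
  simp only [id, h1, sum_const, card_univ, Fintype.card_fin, nsmul_eq_mul] at h2
  have : (n : ℝ) ≠ 0 := by exact_mod_cast NeZero.ne n
  field_simp
  linarith

variable {ι : Type} [Fintype ι]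

noncomputable def L (j : ι → Fin n) : (ι → ℝ) →L[ℝ] E n :=
  ∑ η, (ContinuousLinearMap.proj η).smulRight (EuclideanSpace.single (j η) (1 : ℝ))

def body (j : ι → Fin n) : Set (E n) := closedBall 0 1 + L j '' closedBall 0 1

lemma L_apply {j : ι → Fin n} (hj : Function.Injective j) (t : ι → ℝ) (η : ι) :
    L j t (j η) = t η := by
  classical
  simp [L, Pi.single_apply, hj.eq_iff]

lemma ball_sub (j : ι → Fin n) : closedBall 0 1 ⊆ body j := fun x hx =>
  ⟨x, hx, 0, ⟨0, by simp, map_zero _⟩, add_zero x⟩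

lemma le_gauge {j : ι → Fin n} (hj : Function.Injective j) (x : E n) (η : ι) :
    |x (j η)| / 2 ≤ gauge (body j) x := by
  refine le_csInf ((absorbent_nhds_zero (Filter.mem_of_superset
    (closedBall_mem_nhds 0 one_pos) (ball_sub j))).gauge_set_nonempty (x := x)) ?_
  rintro r ⟨hr, _, ⟨b, hb, _, ⟨t, ht, rfl⟩, rfl⟩, rfl⟩
  have h1 : |b (j η)| ≤ 1 := (PiLp.norm_apply_le b _).trans (by simpa using hb)
  have h2 : |t η| ≤ 1 := (norm_le_pi_norm t η).trans (by simpa using ht)
  have h3 := abs_add_le (b (j η)) (t η)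
  simp only [PiLp.smul_apply, PiLp.add_apply, L_apply hj, smul_eq_mul, abs_mul, abs_of_pos hr]
  nlinarith

lemma MM_le [NeZero n] [Nonempty ι] (j : ι → Fin n) (hn : Fintype.card ι ^ 2 ≤ n) :
    MM (body j) ≤ 3 ∧ 0 ≤ MM (body j) := by
  have hk : (0 : ℝ) < Fintype.card ι := by exact_mod_cast Fintype.card_pos
  have hK : IsCompact (body j) :=
    (isCompact_closedBall _ _).add ((isCompact_closedBall _ _).image (L j).continuous)
  have h0 : ∀ T : E n ≃L[ℝ] E n, 0 ≤ M (T '' body j) ∧ 0 ≤ Mstar (T '' body j) := fun T =>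
    ⟨avg_nonneg fun x => gauge_nonneg _, avg_nonneg fun x => le_csSup
      ((hK.image T.continuous).image (by fun_prop)).bddAbove
      ⟨0, ⟨0, ball_sub j (by simp), map_zero _⟩, inner_zero_right _⟩⟩
  refine ⟨(ciInf_le ⟨0, ?_⟩ (.refl ℝ _)).trans ?_,
    Real.iInf_nonneg fun T => mul_nonneg (h0 T).1 (h0 T).2⟩
  · rintro _ ⟨T, rfl⟩
    exact mul_nonneg (h0 T).1 (h0 T).2
  have h1 : M (body j) ≤ 1 := (avg_le continuous_const (fun _ => zero_le_one) fun x hx =>
    gauge_le_one_of_mem (ball_sub j (by simp [hx]))).trans (avg_const 1).le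
  have h2 : Mstar (body j) ≤ 3 := by
    refine (avg_le (G := fun x => 2 + Fintype.card ι * ∑ i, x (j i) ^ 2) (by fun_prop)
      (fun x => by positivity) fun x hx =>
        csSup_le (Set.Nonempty.image _ ⟨0, ball_sub j (by simp)⟩) ?_).trans ?_
    · rintro _ ⟨_, ⟨b, hb, _, ⟨t, ht, rfl⟩, rfl⟩, rfl⟩
      have h3 : inner ℝ x b ≤ 1 := (real_inner_le_norm x b).trans (by simpa [hx] using hb)
      have h4 : inner ℝ x (L j t) ≤ ∑ η, (1 / (Fintype.card ι : ℝ) +
          Fintype.card ι * x (j η) ^ 2) := by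
        simp only [L, _root_.sum_apply, inner_sum]
        refine sum_le_sum fun η _ => ?_
        have h5 : |t η| ≤ 1 := (norm_le_pi_norm t η).trans (by simpa using ht)
        have h6 : t η * x (j η) ≤ |x (j η)| := (le_abs_self _).trans (by
          rw [abs_mul]
          exact mul_le_of_le_one_left (abs_nonneg _) h5)
        have h7 : |x (j η)| ≤ 1 / (Fintype.card ι : ℝ) + Fintype.card ι * x (j η) ^ 2 := by
          rw [← sq_abs, div_add' _ _ _ hk.ne', le_div_iff₀ hk]
          nlinarith [sq_nonneg (|x (j η)| * Fintype.card ι - 1), abs_nonneg (x (j η))]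
        simpa [inner_smul_right, EuclideanSpace.inner_single_right] using h6.trans h7
      rw [sum_add_distrib, ← mul_sum, sum_const, card_univ, nsmul_eq_mul, mul_one_div_cancel hk.ne']
        at h4
      simp only [inner_add_right]
      linarith
    · have hn0 : (0 : ℝ) < n := by exact_mod_cast NeZero.pos n
      have : ((Fintype.card ι : ℝ) ^ 2) / n ≤ 1 := by
        rw [div_le_one hn0]
        exact_mod_cast hn
      simp only [avg_aff, avg_sq, sum_const, card_univ, nsmul_eq_mul]
      rw [show (Fintype.card ι : ℝ) * (Fintype.card ι * (1 / n)) = Fintype.card ι ^ 2 / n by ring]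
      linarith
  have h3 := h0 (.refl ℝ _)
  simp only [ContinuousLinearEquiv.coe_refl', id, Set.image_id'] at h3 ⊢
  nlinarith [h3.1, h3.2]

open Complex in
noncomputable def P (t : ℝ) (ε η : Fin m → Bool) : ℂ :=
  ∏ k, (1 + I * (t * sgn (ε k) * sgn (η k) : ℝ))

lemma P_le {t : ℝ} (ht : m * t ^ 2 = 1) (ε η : Fin m → Bool) : |(P t ε η).im| ≤ 3 := by
  refine (Complex.abs_im_le_norm _).trans ?_
  rw [P, norm_prod]
  refine (prod_le_prod (g := fun _ => Real.exp (t ^ 2)) (fun _ _ => norm_nonneg _)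
    fun k _ => ?_).trans ?_
  · refine le_trans (abs_le_of_sq_le_sq' ?_ (by positivity)).2 (Real.add_one_le_exp _)
    rw [Complex.sq_norm, Complex.normSq_apply]
    cases ε k <;> cases η k <;> simp [sgn] <;> nlinarith [sq_nonneg t, sq_nonneg (t ^ 2)]
  · rw [prod_const, card_univ, Fintype.card_fin, ← Real.exp_nat_mul, ht]
    exact Real.exp_one_lt_three.le

lemma P_sum (t : ℝ) (η : Fin m → Bool) (i : Fin m) :
    ∑ δ, sgn (δ i) * (P t δ η).im = 2 ^ m * (t * sgn (η i)) := by
  have h := prod_univ_sum (fun _ : Fin m => (univ : Finset Bool)) fun k b =>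
    (if k = i then (sgn b : ℂ) else 1) * (1 + Complex.I * (t * sgn b * sgn (η k) : ℝ))
  simp only [prod_mul_distrib, prod_ite_eq', Finset.mem_univ, if_true, Fintype.piFinset_univ] at h
  have h2 : ∀ k, ∑ b : Bool, (if k = i then (sgn b : ℂ) else 1) *
      (1 + Complex.I * (t * sgn b * sgn (η k) : ℝ)) =
      2 * if k = i then Complex.I * (t * sgn (η k) : ℝ) else 1 := fun k => by
    split_ifs <;> simp [sgn] <;> split_ifs <;> push_cast <;> ring
  simp only [h2, prod_mul_distrib, prod_ite_eq', Finset.mem_univ, if_true, prod_const, card_univ,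
    Fintype.card_fin] at h
  have h3 := congrArg Complex.im h
  rw [show (2 : ℂ) ^ m = ((2 ^ m : ℝ) : ℂ) by simp, Complex.im_ofReal_mul, Complex.im_sum] at h3
  simp only [Complex.im_ofReal_mul, Complex.I_mul_im, Complex.ofReal_re] at h3
  exact h3.symm

theorem result (C : ℝ) : ∃ (n : ℕ) (K : Set (E n)), IsCompact K ∧ Convex ℝ K ∧
    (interior K).Nonempty ∧ K = -K ∧
    ∃ (m : ℕ) (f : (Fin m → Bool) → E n), C * MM K * L2 K f < L2 K (rad f) := by
  obtain ⟨r, hr⟩ := exists_nat_gt (18 * |C|)
  have hr0 : (0 : ℝ) < r := lt_of_le_of_lt (by positivity) hr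
  have : NeZero (Fintype.card (Fin (r * r) → Bool) ^ 2) := ⟨pow_ne_zero _ Fintype.card_ne_zero⟩
  obtain ⟨j⟩ : Nonempty ((Fin (r * r) → Bool) ↪ Fin (Fintype.card (Fin (r * r) → Bool) ^ 2)) :=
    Function.Embedding.nonempty_of_card_le
      (by rw [Fintype.card_fin]; exact Nat.le_self_pow two_ne_zero _)
  have ht : ((r * r : ℕ) : ℝ) * (1 / r) ^ 2 = 1 := by
    push_cast
    field_simp
  obtain ⟨h1, h2⟩ := MM_le j le_rfl
  refine ⟨_, body j, (isCompact_closedBall _ _).add
    ((isCompact_closedBall _ _).image (L j).continuous), (convex_closedBall _ _).add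
    ((convex_closedBall _ _).linear_image (L j).toLinearMap), ⟨0, mem_interior_iff_mem_nhds.2
    (Filter.mem_of_superset (closedBall_mem_nhds 0 one_pos) (ball_sub j))⟩, ?_, r * r,
    fun ε => L j fun η => (P (1 / r) ε η).im / 3, ?_⟩
  · have : ∀ x ∈ body j, -x ∈ body j := by
      rintro _ ⟨b, hb, _, ⟨t, ht, rfl⟩, rfl⟩
      exact ⟨-b, by simpa using hb, _, ⟨-t, by simpa using ht, rfl⟩, by simp [add_comm]⟩
    ext x
    exact ⟨this x, fun h => by simpa using this _ h⟩
  have h3 : L2 (body j) (fun ε => L j fun η => (P (1 / r) ε η).im / 3) ≤ 1 := by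
    rw [L2, Real.sqrt_le_one, div_le_one (by positivity)]
    refine (sum_le_card_nsmul _ _ 1 fun ε _ => pow_le_one₀ (gauge_nonneg _)
      (gauge_le_one_of_mem (Set.mem_add.2 ⟨0, by simp, _, Set.mem_image_of_mem _ ?_,
        zero_add _⟩))).trans (by simp)
    rw [mem_closedBall_zero_iff, pi_norm_le_iff_of_nonneg zero_le_one]
    intro η
    rw [Real.norm_eq_abs, abs_div, div_le_one (by positivity)]
    simpa using P_le ht ε η
  have h4 : r / 6 ≤ L2 (body j) (rad fun ε => L j fun η => (P (1 / r) ε η).im / 3) := by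
    refine Real.le_sqrt_of_sq_le ?_
    rw [le_div_iff₀ (by positivity)]
    refine le_trans (by simp [mul_comm]) (card_nsmul_le_sum _ _ ((r / 6 : ℝ) ^ 2) fun ε _ =>
      pow_le_pow_left₀ (by positivity) (le_trans ?_ (le_gauge j.injective _ ε)) 2)
    have h5 : ∀ i, sgn (ε i) * (1 / 2 ^ (r * r) * ∑ δ : Fin (r * r) → Bool,
        sgn (δ i) * ((P (1 / r) δ ε).im / 3)) = 1 / r / 3 := fun i => by
      rw [sum_congr rfl fun δ _ => (mul_div_assoc _ _ _).symm, ← sum_div, P_sum]
      cases ε i <;> simp [sgn] <;> field_simp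
    simp only [rad, WithLp.ofLp_sum, Finset.sum_apply, PiLp.smul_apply, smul_eq_mul,
      L_apply j.injective, h5, sum_const, card_univ, Fintype.card_fin, nsmul_eq_mul]
    rw [abs_of_pos (by push_cast; positivity)]
    push_cast
    field_simp
    norm_num
  have h5 : 0 ≤ L2 (body j) (fun ε => L j fun η => (P (1 / r) ε η).im / 3) := Real.sqrt_nonneg _
  have h6 := mul_le_mul h1 h3 h5 (by norm_num)
  have h7 := mul_le_mul (le_abs_self C) h6 (mul_nonneg h2 h5) (abs_nonneg C)
  rw [mul_assoc]
  linarith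

end Pool.Agent.Results.MP_1453e0_an.Counter
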